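import Mathlib

set_option autoImplicit false

open MeasureTheory Topology Filter Set Metric Asymptotics
open scoped ENNReal NNReal ContDiff

namespace Pool.Agent.H510R3.BG

/-- Second order Taylor estimate, uniform in the base point. -/
lemma taylor2 {E : Type*} [NormedAddCommGroup E] [NormedSpace ℝ E] (r : E → ℝ) (p : E)
    (hr : ContDiffAt ℝ 2 r p) (η : ℝ) (hη : 0 < η) :
    ∃ δ : ℝ, 0 < δ ∧ ∀ q ∈ ball p δ, ∀ h : E, ‖h‖ < δ →
      |r (q + h) - r q - fderiv ℝ r q h - (1/2) * fderiv ℝ (fderiv ℝ r) p h h| ≤ η * ‖h‖^2 := by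
  set L := fderiv ℝ r with hL
  set B := fderiv ℝ L p with hB
  have hL1 : ContDiffAt ℝ 1 L p := hr.fderiv_right (m := 1) (by norm_num)
  have hstrict : HasStrictFDerivAt L B p := hL1.hasStrictFDerivAt (by norm_num)
  have hsymm : ∀ x y, B x y = B y x := by
    have := hr.isSymmSndFDerivAt (by simp)
    intro x y
    exact this x y
  have hdiff : ∀ᶠ x in 𝓝 p, HasFDerivAt r (L x) x := by
    have h1 : ∀ᶠ x in 𝓝 p, ContDiffAt ℝ 1 r x :=
      (hr.of_le (by norm_num)).eventually (by simp)
    filter_upwards [h1] with x hx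
    exact (hx.differentiableAt (by norm_num)).hasFDerivAt
  have h1 := hstrict.isLittleO.bound hη
  have h1' : ∃ ε > 0, ∀ x ∈ ball p ε, ∀ y ∈ ball p ε, ‖L x - L y - B (x - y)‖ ≤ η * ‖x - y‖ := by
    obtain ⟨ε, hε, h⟩ := Metric.eventually_nhds_iff_ball.1 h1
    refine ⟨ε, hε, fun x hx y hy => h (x, y) ?_⟩
    rw [← ball_prod_same]
    exact mk_mem_prod hx hy
  obtain ⟨ε₁, hε₁, H1⟩ := h1'
  obtain ⟨ε₂, hε₂, H2⟩ := Metric.eventually_nhds_iff_ball.1 hdiff
  refine ⟨min ε₁ ε₂ / 2, by positivity, ?_⟩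
  intro q hq h hh
  have hmin : (0:ℝ) < min ε₁ ε₂ := by positivity
  rw [mem_ball, dist_eq_norm] at hq
  have hsub : ∀ x ∈ closedBall q ‖h‖, x ∈ ball p (min ε₁ ε₂) := by
    intro x hx
    rw [mem_closedBall, dist_eq_norm] at hx
    rw [mem_ball, dist_eq_norm]
    calc ‖x - p‖ = ‖(x - q) + (q - p)‖ := by congr 1; abel
      _ ≤ ‖x - q‖ + ‖q - p‖ := norm_add_le _ _
      _ < min ε₁ ε₂ := by linarith
  have hqq : q ∈ closedBall q ‖h‖ := mem_closedBall_self (norm_nonneg _)
  have key := Convex.norm_image_sub_le_of_norm_hasFDerivWithin_le (𝕜 := ℝ)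
    (f := fun x => r x - L q (x - q) - (1/2) * B (x - q) (x - q))
    (f' := fun x => L x - L q - B (x - q)) (C := η * ‖h‖) (s := closedBall q ‖h‖)
    (x := q) (y := q + h) ?_ ?_ (convex_closedBall _ _) hqq (by simp)
  · have e : (fun x => r x - L q (x - q) - (1/2) * B (x - q) (x - q)) (q + h) -
        (fun x => r x - L q (x - q) - (1/2) * B (x - q) (x - q)) q =
        r (q + h) - r q - L q h - (1/2) * B h h := by
      simp
      ring
    rw [e, Real.norm_eq_abs] at key
    have e2 : q + h - q = h := by abel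
    rw [e2] at key
    calc _ ≤ η * ‖h‖ * ‖h‖ := key
      _ = η * ‖h‖^2 := by ring
  · intro x hx
    apply HasFDerivAt.hasFDerivWithinAt
    have hx2 := hsub x hx
    have hx3 : x ∈ ball p ε₂ := ball_subset_ball (min_le_right _ _) hx2
    have d1 : HasFDerivAt r (L x) x := H2 x hx3
    have d0 : HasFDerivAt (fun x : E => x - q) (ContinuousLinearMap.id ℝ E) x :=
      (hasFDerivAt_id x).sub_const q
    have d2 : HasFDerivAt (fun x : E => L q (x - q)) (L q) x := by
      have := (L q).hasFDerivAt.comp x d0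
      exact this.congr_fderiv (by ext; simp)
    have d3 : HasFDerivAt (fun x : E => B (x - q) (x - q)) ((2:ℝ) • B (x - q)) x := by
      have dB : HasFDerivAt (fun x : E => B (x - q)) B x := by
        have := B.hasFDerivAt.comp x d0
        exact this.congr_fderiv (by ext; simp)
      have := dB.clm_apply d0
      refine this.congr_fderiv ?_
      ext y
      simp [two_mul, hsymm y x, hsymm y q]
    have d4 := (d1.sub d2).sub (d3.const_mul (1/2 : ℝ))
    refine d4.congr_fderiv ?_
    ext y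
    simp
  · intro x hx
    have hx2 := hsub x hx
    have hq2 := hsub q hqq
    have hx3 : x ∈ ball p ε₁ := ball_subset_ball (min_le_left _ _) hx2
    have hq3 : q ∈ ball p ε₁ := ball_subset_ball (min_le_left _ _) hq2
    have := H1 x hx3 q hq3
    rw [mem_closedBall, dist_eq_norm] at hx
    calc _ ≤ η * ‖x - q‖ := this
      _ ≤ η * ‖h‖ := by gcongr

end Pool.Agent.H510R3.BG
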