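import Pool.Agent.H301X.BG.Stmts
import Pool.Agent.H510R3.BG.Tilt0

set_option autoImplicit false

open MeasureTheory Topology Filter Set Metric Asymptotics
open scoped ENNReal NNReal ContDiff

namespace Pool.Agent.H510R3.BG

open Pool.Agent.H301X.BG

set_option maxHeartbeats 4000000 in
theorem taskTilt : TaskTilt := by
  intro n r p v hr hL0 hv hIv
  set L := fderiv ℝ r with hL
  set B := fderiv ℝ L p with hB
  have hL1 : ContDiffAt ℝ 1 L p := hr.fderiv_right (m := 1) (by norm_num)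
  have hsymm : ∀ x y, B x y = B y x := by
    have := hr.isSymmSndFDerivAt (by simp)
    intro x y
    exact this x y
  have hlin : ∀ (f : (Fin n → ℂ) →L[ℝ] ℝ) (c : ℂ) (h : Fin n → ℂ),
      f (c • h) = c.re * f h + c.im * f (Complex.I • h) := by
    intro f c h
    have : c • h = c.re • h + c.im • (Complex.I • h) := by
      ext i
      simp only [Pi.smul_apply, Pi.add_apply, smul_eq_mul, Complex.real_smul]
      conv_lhs => rw [← Complex.re_add_im c]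
      ring
    rw [this, map_add, map_smul, map_smul, smul_eq_mul, smul_eq_mul]
  obtain ⟨ℓ, hℓ⟩ : ∃ ℓ : (Fin n → ℂ) → (Fin n → ℂ) → ℂ,
      ∀ q h, ℓ q h = (L q h : ℂ) - Complex.I * (L q (Complex.I • h) : ℂ) :=
    ⟨fun q h => (L q h : ℂ) - Complex.I * (L q (Complex.I • h) : ℂ), fun _ _ => rfl⟩
  have ℓ_add : ∀ q x y, ℓ q (x + y) = ℓ q x + ℓ q y := by
    intro q x y
    rw [hℓ, hℓ, hℓ, smul_add, map_add, map_add]
    push_cast
    ring
  have hII : ∀ x : Fin n → ℂ, Complex.I • Complex.I • x = -x := by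
    intro x
    rw [smul_smul, Complex.I_mul_I, neg_one_smul]
  have ℓ_smul : ∀ q (c : ℂ) x, ℓ q (c • x) = c * ℓ q x := by
    intro q c x
    rw [hℓ, hℓ, smul_comm, hlin (L q) c x, hlin (L q) c (Complex.I • x), hII, map_neg]
    apply Complex.ext <;> simp <;> ring
  have ℓ_re : ∀ q x, (ℓ q x).re = L q x := by
    intro q x
    rw [hℓ]
    simp
  obtain ⟨ν, hν⟩ : ∃ ν, ℓ p ν = 1 := by
    have : ∃ h, L p h ≠ 0 := by
      by_contra hcon
      push Not at hcon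
      exact hL0 (ContinuousLinearMap.ext hcon)
    obtain ⟨h, hh⟩ := this
    have h2 : ℓ p h ≠ 0 := by
      intro h0
      apply hh
      rw [← ℓ_re, h0]
      simp
    exact ⟨(ℓ p h)⁻¹ • h, by rw [ℓ_smul]; exact inv_mul_cancel₀ h2⟩
  have hLν : L p ν = 1 := by rw [← ℓ_re, hν]; simp
  have hℓv : ℓ p v = 0 := by rw [hℓ, hv, hIv]; simp
  have hofR : ∀ w : Fin n → ℂ, HasFDerivAt (fun q => (L q w : ℂ))
      (Complex.ofRealCLM.comp (B.flip w)) p := by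
    intro w
    have h1 : HasFDerivAt L B p := (hL1.differentiableAt (by norm_num)).hasFDerivAt
    have h2 : HasFDerivAt (fun q => L q w) (B.flip w) p := by
      have := h1.clm_apply (hasFDerivAt_const w p)
      exact this.congr_fderiv (by ext; simp)
    exact Complex.ofRealCLM.hasFDerivAt.comp p h2
  have hℓ1 : ∀ w, ContDiffAt ℝ 1 (fun q => ℓ q w) p := by
    intro w
    have : (fun q => ℓ q w) = fun q => (L q w : ℂ) - Complex.I * (L q (Complex.I • w) : ℂ) := by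
      funext q; rw [hℓ]
    rw [this]
    have h1 : ∀ w : Fin n → ℂ, ContDiffAt ℝ 1 (fun q => (L q w : ℂ)) p := fun w =>
      Complex.ofRealCLM.contDiff.contDiffAt.comp p (hL1.clm_apply contDiffAt_const)
    exact (h1 w).sub (contDiffAt_const.mul (h1 _))
  have hℓd : ∀ w, ∀ h, fderiv ℝ (fun q => ℓ q w) p h =
      (B h w : ℂ) - Complex.I * (B h (Complex.I • w) : ℂ) := by
    intro w h
    have e : (fun q => ℓ q w) = fun q => (L q w : ℂ) - Complex.I * (L q (Complex.I • w) : ℂ) := by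
      funext q; rw [hℓ]
    rw [e]
    have h1 : HasFDerivAt (fun q => (L q w : ℂ) - Complex.I * (L q (Complex.I • w) : ℂ))
        (Complex.ofRealCLM.comp (B.flip w) -
          Complex.I • Complex.ofRealCLM.comp (B.flip (Complex.I • w))) p :=
      (hofR w).sub ((hofR (Complex.I • w)).const_mul Complex.I)
    rw [h1.fderiv]
    simp
  have hνc : ContinuousAt (fun q => ℓ q ν) p := (hℓ1 ν).continuousAt
  have hνne : ℓ p ν ≠ 0 := by rw [hν]; exact one_ne_zero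
  have hνne' : ∀ᶠ q in 𝓝 p, ℓ q ν ≠ 0 := hνc.eventually_ne hνne
  set a : (Fin n → ℂ) → ℂ := fun q => - ℓ q v / ℓ q ν with ha
  set Q1 := B v v with hQ1
  set Q2 := B v (Complex.I • v) with hQ2
  set Q3 := B (Complex.I • v) (Complex.I • v) with hQ3
  set β : ℂ := (((Q1 - Q3) / 2 : ℝ) : ℂ) - Complex.I * (Q2 : ℂ) with hβ
  set b : ℂ := -β / 2 with hb
  have hLevi : LeviAt r p v = Q1 + Q3 := rfl
  have hap : a p = 0 := by rw [ha]; simp [hℓv]
  have haC : ContDiffAt ℝ 1 a p := by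
    have : a = fun q => - ℓ q v * (ℓ q ν)⁻¹ := by
      funext q
      exact div_eq_mul_inv _ _
    rw [this]
    exact ((hℓ1 v).neg).mul ((hℓ1 ν).inv hνne)
  have hmain : ∀ᶠ q in 𝓝 p, ∀ ζ : ℂ, L q (ζ • (v + a q • ν)) = 0 := by
    filter_upwards [hνne'] with q hq ζ
    rw [← ℓ_re, ℓ_smul, ℓ_add, ℓ_smul]
    have : ℓ q v + a q * ℓ q ν = 0 := by
      simp only [ha]
      field_simp
      ring
    rw [this]
    simp
  have hquad : ∀ ζ : ℂ, (b * ζ^2).re + (1/2) * B (ζ • v) (ζ • v) = (Q1 + Q3) / 4 * ‖ζ‖^2 := by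
    intro ζ
    rw [hlin (B (ζ • v)) ζ v, hsymm (ζ • v) v, hsymm (ζ • v) (Complex.I • v),
      hlin (B v) ζ v, hlin (B (Complex.I • v)) ζ v, hsymm (Complex.I • v) v, ← hQ1, ← hQ2, ← hQ3]
    rw [← Complex.normSq_eq_norm_sq, Complex.normSq_apply]
    have : (b * ζ^2).re = -(1/2) * ((Q1 - Q3) / 2 * (ζ.re * ζ.re - ζ.im * ζ.im) + 2 * Q2 * ζ.re * ζ.im) := by
      rw [hb, hβ]
      simp [pow_two]
      ring
    rw [this]
    ring
  refine ⟨ν, a, b, hLν, hap, haC, ?_, ?_⟩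
  · intro hκ ζ
    rw [hLevi] at hκ
    have hQ : Q3 = - Q1 := by linarith
    have hmul : (fun q => a q * ℓ q ν) =ᶠ[𝓝 p] fun q => - ℓ q v := by
      filter_upwards [hνne'] with q hq
      simp only [ha]
      field_simp
    have d1 : HasFDerivAt a (fderiv ℝ a p) p := (haC.differentiableAt (by norm_num)).hasFDerivAt
    have d2 : HasFDerivAt (fun q => ℓ q ν) (fderiv ℝ (fun q => ℓ q ν) p) p :=
      ((hℓ1 ν).differentiableAt (by norm_num)).hasFDerivAt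
    have d3 : HasFDerivAt (fun q => - ℓ q v) (-fderiv ℝ (fun q => ℓ q v) p) p :=
      ((hℓ1 v).differentiableAt (by norm_num)).hasFDerivAt.neg
    have d4 := (d1.mul d2).congr_of_eventuallyEq hmul.symm
    have d5 := d4.unique d3
    have d6 := congrArg (fun f => f (ζ • v)) d5
    simp only [hap, hν, add_apply, smul_apply,
      neg_apply, zero_smul, one_smul, zero_add] at d6
    rw [d6, hℓd, hsymm (ζ • v) v, hsymm (ζ • v) (Complex.I • v),
      hlin (B v) ζ v, hlin (B (Complex.I • v)) ζ v, hsymm (Complex.I • v) v, ← hQ1, ← hQ2, ← hQ3,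
      hb, hβ, hQ]
    apply Complex.ext <;> (simp; ring)
  · intro η hη
    rw [hLevi]
    set C : ℝ := ‖v‖ + 1 with hC
    have hC0 : 0 < C := by positivity
    obtain ⟨δ, hδ, hT⟩ := taylor2 r p hr (η / (3 * C^2)) (by positivity)
    have hact : ContinuousAt a p := haC.continuousAt
    -- continuity on the product
    have c1 : Tendsto (fun x : (Fin n → ℂ) × ℂ => a x.1 + b * x.2) (𝓝 (p, 0)) (𝓝 0) := by
      have h1 : Tendsto (fun x : (Fin n → ℂ) × ℂ => a x.1) (𝓝 (p, 0)) (𝓝 (a p)) :=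
        hact.tendsto.comp continuous_fst.continuousAt
      have h2 : Tendsto (fun x : (Fin n → ℂ) × ℂ => b * x.2) (𝓝 (p, 0)) (𝓝 (b * 0)) :=
        (continuous_const.mul continuous_snd).continuousAt
      have := h1.add h2
      simpa [hap] using this
    have c2 : Tendsto (fun x : (Fin n → ℂ) × ℂ => v + (a x.1 + b * x.2) • ν) (𝓝 (p, 0))
        (𝓝 v) := by
      have := (tendsto_const_nhds (x := v)).add (c1.smul_const ν)
      simpa using this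
    have c3 : Tendsto (fun x : (Fin n → ℂ) × ℂ => x.2 • (v + (a x.1 + b * x.2) • ν)) (𝓝 (p, 0))
        (𝓝 0) := by
      have h2 : Tendsto (fun x : (Fin n → ℂ) × ℂ => x.2) (𝓝 (p, 0)) (𝓝 0) :=
        continuous_snd.continuousAt
      have := h2.smul c2
      simpa using this
    have c4 : Tendsto (fun x : (Fin n → ℂ) × ℂ => ℓ x.1 ν - 1) (𝓝 (p, 0)) (𝓝 0) := by
      have h1 : Tendsto (fun x : (Fin n → ℂ) × ℂ => ℓ x.1 ν) (𝓝 (p, 0)) (𝓝 (ℓ p ν)) :=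
        hνc.tendsto.comp continuous_fst.continuousAt
      have := h1.sub_const 1
      simpa [hν] using this
    have e1 : ∀ᶠ x : (Fin n → ℂ) × ℂ in 𝓝 (p, 0), ‖a x.1 + b * x.2‖ <
        η / (3 * (‖B‖ * C * ‖ν‖ + 1)) := by
      have := c1.norm.eventually_lt_const (v := ‖(0:ℂ)‖) (u := η / (3 * (‖B‖ * C * ‖ν‖ + 1)))
        (by rw [norm_zero]; positivity)
      exact this
    have e2 : ∀ᶠ x : (Fin n → ℂ) × ℂ in 𝓝 (p, 0), ‖v + (a x.1 + b * x.2) • ν‖ < C :=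
      c2.norm.eventually_lt_const (by rw [hC]; linarith)
    have e3 : ∀ᶠ x : (Fin n → ℂ) × ℂ in 𝓝 (p, 0), ‖x.2 • (v + (a x.1 + b * x.2) • ν)‖ < δ :=
      c3.norm.eventually_lt_const (by rw [norm_zero]; exact hδ)
    have e4 : ∀ᶠ x : (Fin n → ℂ) × ℂ in 𝓝 (p, 0), ‖ℓ x.1 ν - 1‖ < η / (3 * (‖b‖ + 1)) :=
      c4.norm.eventually_lt_const (by rw [norm_zero]; positivity)
    have e5 : ∀ᶠ x : (Fin n → ℂ) × ℂ in 𝓝 (p, 0), x.1 ∈ ball p δ :=
      continuous_fst.continuousAt.eventually (ball_mem_nhds p hδ)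
    have e6 : ∀ᶠ x : (Fin n → ℂ) × ℂ in 𝓝 (p, 0), ∀ ζ : ℂ, L x.1 (ζ • (v + a x.1 • ν)) = 0 :=
      (continuous_fst.tendsto (p, (0:ℂ))).eventually hmain
    obtain ⟨ε, hε, H⟩ := Metric.eventually_nhds_iff_ball.1
      (e1.and (e2.and (e3.and (e4.and (e5.and e6)))))
    refine ⟨ε, hε, fun q hq ζ hζ => ?_⟩
    obtain ⟨f1, f2, f3, f4, f5, f6⟩ := H (q, ζ) (by rw [← ball_prod_same]; exact mk_mem_prod hq hζ)
    simp only at f1 f2 f3 f4 f5 f6
    set w := v + (a q + b * ζ) • ν with hw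
    have hD : D v ν a b ζ q = q + ζ • w := by
      rw [D, hw]
      module
    have hLw : L q (ζ • w) = (b * ζ^2 * ℓ q ν).re := by
      have : ζ • w = ζ • (v + a q • ν) + (b * ζ^2) • ν := by
        rw [hw]; module
      rw [this, map_add, f6 ζ, zero_add, ← ℓ_re, ℓ_smul]
    have hT' := hT q f5 (ζ • w) f3
    rw [← hL, ← hB] at hT'
    rw [hD]
    have hsplit : r (q + ζ • w) - r q - (Q1 + Q3) / 4 * ‖ζ‖^2 =
        (r (q + ζ • w) - r q - L q (ζ • w) - (1/2) * B (ζ • w) (ζ • w)) +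
        (b * ζ^2 * (ℓ q ν - 1)).re + (1/2) * (B (ζ • w) (ζ • w) - B (ζ • v) (ζ • v)) := by
      rw [← hquad ζ, hLw, mul_sub, Complex.sub_re, mul_one]
      ring
    rw [hsplit]
    have hn1 : ‖ζ • w‖ ≤ C * ‖ζ‖ := by
      rw [norm_smul, mul_comm]
      gcongr
    have hn2 : ‖ζ • v‖ ≤ C * ‖ζ‖ := by
      rw [norm_smul, mul_comm]
      gcongr
      rw [hC]; linarith
    have hn3 : ‖ζ • w - ζ • v‖ ≤ ‖ζ‖ * (η / (3 * (‖B‖ * C * ‖ν‖ + 1)) * ‖ν‖) := by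
      have : ζ • w - ζ • v = ζ • ((a q + b * ζ) • ν) := by rw [hw]; module
      rw [this, norm_smul, norm_smul]
      gcongr
    have t1 : |r (q + ζ • w) - r q - L q (ζ • w) - (1/2) * B (ζ • w) (ζ • w)| ≤ η / 3 * ‖ζ‖^2 := by
      refine hT'.trans ?_
      calc η / (3 * C^2) * ‖ζ • w‖^2 ≤ η / (3 * C^2) * (C * ‖ζ‖)^2 := by gcongr
        _ = η / 3 * ‖ζ‖^2 := by field_simp
    have t2 : |(b * ζ^2 * (ℓ q ν - 1)).re| ≤ η / 3 * ‖ζ‖^2 := by
      refine (Complex.abs_re_le_norm _).trans ?_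
      rw [norm_mul, norm_mul, norm_pow]
      calc ‖b‖ * ‖ζ‖^2 * ‖ℓ q ν - 1‖ ≤ ‖b‖ * ‖ζ‖^2 * (η / (3 * (‖b‖ + 1))) := by gcongr
        _ ≤ (‖b‖ + 1) * ‖ζ‖^2 * (η / (3 * (‖b‖ + 1))) := by gcongr; linarith
        _ = η / 3 * ‖ζ‖^2 := by field_simp
    have t3 : |(1/2) * (B (ζ • w) (ζ • w) - B (ζ • v) (ζ • v))| ≤ η / 3 * ‖ζ‖^2 := by
      have e : B (ζ • w) (ζ • w) - B (ζ • v) (ζ • v) =
          B (ζ • w - ζ • v) (ζ • w) + B (ζ • v) (ζ • w - ζ • v) := by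
        rw [map_sub, map_sub, sub_apply]; ring
      have n1 : ‖B (ζ • w - ζ • v) (ζ • w)‖ ≤ ‖B‖ * ‖ζ • w - ζ • v‖ * ‖ζ • w‖ :=
        B.le_opNorm₂ _ _
      have n2 : ‖B (ζ • v) (ζ • w - ζ • v)‖ ≤ ‖B‖ * ‖ζ • v‖ * ‖ζ • w - ζ • v‖ :=
        B.le_opNorm₂ _ _
      have n3 : ‖B (ζ • w) (ζ • w) - B (ζ • v) (ζ • v)‖ ≤
          2 * (‖B‖ * (‖ζ‖ * (η / (3 * (‖B‖ * C * ‖ν‖ + 1)) * ‖ν‖)) * (C * ‖ζ‖)) := by
        rw [e]
        refine (norm_add_le _ _).trans ?_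
        have n1' : ‖B‖ * ‖ζ • w - ζ • v‖ * ‖ζ • w‖ ≤
            ‖B‖ * (‖ζ‖ * (η / (3 * (‖B‖ * C * ‖ν‖ + 1)) * ‖ν‖)) * (C * ‖ζ‖) := by gcongr
        have n2' : ‖B‖ * ‖ζ • v‖ * ‖ζ • w - ζ • v‖ ≤
            ‖B‖ * (C * ‖ζ‖) * (‖ζ‖ * (η / (3 * (‖B‖ * C * ‖ν‖ + 1)) * ‖ν‖)) := by gcongr
        refine (add_le_add (n1.trans n1') (n2.trans n2')).trans (le_of_eq ?_)
        ring
      rw [abs_mul, abs_of_pos (by norm_num : (0:ℝ) < 1/2), ← Real.norm_eq_abs]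
      calc 1/2 * ‖B (ζ • w) (ζ • w) - B (ζ • v) (ζ • v)‖ ≤
            ‖B‖ * (‖ζ‖ * (η / (3 * (‖B‖ * C * ‖ν‖ + 1)) * ‖ν‖)) * (C * ‖ζ‖) := by linarith
        _ = (‖B‖ * C * ‖ν‖) * (η / (3 * (‖B‖ * C * ‖ν‖ + 1))) * ‖ζ‖^2 := by ring
        _ ≤ (‖B‖ * C * ‖ν‖ + 1) * (η / (3 * (‖B‖ * C * ‖ν‖ + 1))) * ‖ζ‖^2 := by
            gcongr; linarith
        _ = η / 3 * ‖ζ‖^2 := by field_simp
    calc _ ≤ |r (q + ζ • w) - r q - L q (ζ • w) - (1/2) * B (ζ • w) (ζ • w)| +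
          |(b * ζ^2 * (ℓ q ν - 1)).re| + |(1/2) * (B (ζ • w) (ζ • w) - B (ζ • v) (ζ • v))| :=
          abs_add_three _ _ _
      _ ≤ η / 3 * ‖ζ‖^2 + η / 3 * ‖ζ‖^2 + η / 3 * ‖ζ‖^2 := by gcongr
      _ = η * ‖ζ‖^2 := by ring

end Pool.Agent.H510R3.BG

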